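import Pool.Agent.X240.BM.Final

/-!
# The Breuil-Mezard conjecture for `GL_n` over `ℚ_p` as a system of difference equations

`n = N + 1`. A Hodge type `λ` is replaced by the strictly decreasing vector
`ξ = λ + (n - 1, …, 1, 0)` (the Hodge-Tate weights). `mult τ ξ` stands for the Hilbert-Samuel
multiplicity of the special fibre of the potentially crystalline lifting ring of a fixed residual
representation; the theorem is true for arbitrary numbers `mult τ ξ`. They are extended to all the
integral vectors `ξ` as an alternating function `E τ ξ` (`altExt`).

Theorem. There are non-negative integers `μ_V`, `V` the Serre weights, with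
`mult τ ξ = ∑ μ_V n_{λ, τ}(V)` for all `λ` and `τ` (Q1 for the residual representation) if and only
if

(a) for all `τ`, all Hodge types `λ` and all `1 ≤ i ≤ n`, with `ε_S` the indicator of `S`,

  `∑_{|S| = i} E τ (ξ + p ε_S) = ∑_{|S| = i} E τ (ξ + ε_S)`,

the sums over the subsets `S` of `{1, …, n}` with `i` elements; so with the shift operators
`T_1, …, T_n` these are the equations `e_i (T_1 ^ p, …, T_n ^ p) = e_i (T_1, …, T_n)`;

(b) for each `τ` the finitely many identities which express `mult τ ξ` for the restricted `ξ` by the
`mult 1 ξ` for the restricted `ξ`, as the classes of the representations are expressed in the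
Grothendieck group;

(c) the finitely many numbers `μ_V` computed from the `mult 1 ξ` for the restricted `ξ` are `≥ 0`.

(a) and (b) alone are equivalent to the existence of integers `μ_V` (which are then unique). For the
crystalline lifting rings alone (`τ = 1`), the equations (a) for `τ = 1` are equivalent to the
existence of integers `μ_V`. `ξ` is restricted if `1 ≤ ξ_i - ξ_(i+1) ≤ p` and `0 ≤ ξ_n < p - 1`.

The known facts on the Grothendieck ring of `GL_n(𝔽_p)` which are used are collected in `WeightRing`:
the classes of the Serre weights are a basis; Brauer's formula for the product of the class of an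
algebraic representation and of a fundamental representation or its Frobenius twist; the Frobenius
twist is trivial; the classes of algebraic representations generate; and the number of the Serre
weights (Steinberg). The index type of the embeddings of `K = ℚ_p` is `Unit`.
-/

set_option autoImplicit false

namespace Pool.Agent.Results.MP_7b0b46_nt.DifferenceEquations

open Pool.Agent.X240.BM

/-- The conjecture for one residual representation is equivalent to the difference equations (a),
the identities (b) at the restricted weights and the positivity (c); existence of integers is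
equivalent to (a) and (b); for the trivial type alone it is equivalent to (a). -/
theorem result (p N : ℕ) (hp : p.Prime)
    (W : Type) [Fintype W] [Nonempty W] (R : Type) [CommRing R]
    (D : WeightRing Unit W N id (fun _ => (p : ℤ)) () ((p : ℤ) - 1) R)
    (T : Type) (θ : T → R) (t₀ : T) (ht : θ t₀ = 1) (mult : T → Wt Unit (N + 1) → ℕ) :
    ((∃ μ : W → ℕ, HasMultiplicities D θ mult μ) ↔
      (∀ τ, HodgeEq id (fun _ => (p : ℤ)) fun ξ => (mult τ ξ : ℤ)) ∧
        RestrictedIdentities D θ (fun τ ξ => (mult τ ξ : ℤ)) t₀ ∧ Positive D (mult t₀)) ∧
    ((∃! c : W → ℤ, HasCycles D θ (fun τ ξ => (mult τ ξ : ℤ)) c) ↔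
      (∀ τ, HodgeEq id (fun _ => (p : ℤ)) fun ξ => (mult τ ξ : ℤ)) ∧
        RestrictedIdentities D θ (fun τ ξ => (mult τ ξ : ℤ)) t₀) ∧
    ((∃! c : W → ℤ, HasCrystallineCycles D (fun ξ => (mult t₀ ξ : ℤ)) c) ↔
      HodgeEq id (fun _ => (p : ℤ)) fun ξ => (mult t₀ ξ : ℤ)) :=
  ⟨multiplicities_iff (shape_Qp p hp.two_le) D θ t₀ ht mult,
    types_iff (shape_Qp p hp.two_le) D θ t₀ ht _, crys_iff (shape_Qp p hp.two_le) D _⟩

end Pool.Agent.Results.MP_7b0b46_nt.DifferenceEquations
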