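import Pool.Agent.X240.BM.Types3

/-!
# The Breuil-Mezard conjecture for `GL_n(ℚ_p)`: explicit relations for the types

`n = N + 1`. A Hodge type `λ` is replaced by the Hodge-Tate weights `ξ = λ + (n - 1, …, 0)`, a
strictly decreasing vector (there is one embedding, the index type is `Unit`).

`mult₀ ξ` stands for the Hilbert-Samuel multiplicity of the special fibre of the crystalline lifting
ring of a fixed residual representation `r`, and `mult τ ξ` for that of the potentially crystalline
lifting ring of type `τ`; the theorem is true for arbitrary numbers. They are extended to all the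
integral vectors as alternating functions `E` and `E_τ` (`altExt`). For a vector `v` let
`E[v](ξ) = ∑_w sgn w E(ξ + w v)`, the sum over the permutations of the coordinates (`altSum`).

Theorem, first part. Let `τ` range over types which are sums of characters of level one,
`τ = ω ^ (χ 0) ⊕ … ⊕ ω ^ (χ N)`, equal characters being adjacent. There are non-negative integers
`μ_V(r)`, `V` the Serre weights, with the property of the conjecture for the crystalline rings and for
the rings of these types (all Hodge types) if and only if

(a) `E` satisfies the difference equations `e_i(T ^ p) E = e_i(T) E` (`HodgeEq`) of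
`DifferenceEquations`;

(b) for all these `τ` and all `ξ`, with `ρ = (n - 1, …, 0)`,

  `E_τ[ρ](ξ) = ∑_S (-1) ^ |S| E[χ + ∑_{(i, j) ∉ S} ε_i + p ∑_{(i, j) ∈ S} ε_j](ξ)`,

where `S` ranges over the sets of pairs `i < j` of different characters, and the inner sums are over
the pairs `i < j` which are not in `S` or are in `S`;

(c) the solution of the equations for the Serre weights is non-negative (`Positive`, finitely many
conditions on `mult₀` at restricted weights).

For example, for `n = 2` and `τ = ω ^ a ⊕ ω ^ b`, `a ≢ b`, the relations (b) are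
`E_τ(x + 1, y) - E_τ(x, y + 1) = E(x + a + 1, y + b) - E(x + b, y + a + 1) - E(x + a, y + b + p) +
E(x + b + p, y + a)`. For the minimal Hodge type and all `n` the multiplicity for `τ` is the
alternating sum of the `E(χ + ∑_{(i, j) ∉ S} ε_i + p ∑_{(i, j) ∈ S} ε_j)`.

Second part. The same for all types: if the class of the reduction of `σ(τ)` is the combination
`∑ k [v]` of the classes `[v]` of the algebraic representations with parameters `v ≥ 0` (each class
is such a combination), then the whole conjecture for `r` is equivalent to (a), (c) and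
`E_τ[ρ](ξ) = ∑ k E[v](ξ)` for all nontrivial `τ` and all `ξ`.

Third part. Existence of integers `μ_V(r)` in the first part is equivalent to (a) and (b).

The known facts on the Grothendieck ring of `GL_n(𝔽_p)` which are used are collected in `WeightRing`
and `hone`; the formula `psClass` for the class of a parabolically induced representation follows from
the Koszul resolution of the rational points of the flag variety.
-/

set_option autoImplicit false

namespace Pool.Agent.Results.MP_7b0b46_nt.TypeRelations

open Pool.Agent.X240.BM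

/-- First part: crystalline rings and rings of tame types. Second part: all types. Third part:
integers instead of non-negative integers. -/
theorem result (p N : ℕ) (hp : p.Prime)
    (W : Type) [Fintype W] [Nonempty W] (R : Type) [CommRing R]
    (D : WeightRing Unit W N id (fun _ => (p : ℤ)) () ((p : ℤ) - 1) R)
    (hone : D.cls (fun _ => rho N) = 1) :
    (∀ (P : Type) (χ : P → Fin (N + 1) → ℕ) (mult₀ : Wt Unit (N + 1) → ℕ)
      (mult : P → Wt Unit (N + 1) → ℕ),
      (∃ μ : W → ℕ, HasCrystallineCycles D (fun ξ => (mult₀ ξ : ℤ)) (fun V => (μ V : ℤ)) ∧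
        HasMultiplicities D (fun x => psClass D p (χ x)) mult μ) ↔
      HodgeEq id (fun _ => (p : ℤ)) (fun ξ => (mult₀ ξ : ℤ)) ∧
        (∀ x, TameRel () p (χ x) (altExt fun ξ => (mult₀ ξ : ℤ))
          (altExt fun ξ => (mult x ξ : ℤ))) ∧ Positive D mult₀) ∧
    (∀ (T : Type) (θ : T → R) (t₀ : T) (a : T → (Fin (N + 1) → ℤ) →₀ ℤ), θ t₀ = 1 →
      (∀ τ, ∀ v ∈ (a τ).support, ∀ j, 0 ≤ v j) → (∀ τ, τ ≠ t₀ → θ τ = combClass D (a τ)) →
      ∀ mult : T → Wt Unit (N + 1) → ℕ,
      (∃ μ : W → ℕ, HasMultiplicities D θ mult μ) ↔
      HodgeEq id (fun _ => (p : ℤ)) (fun ξ => (mult t₀ ξ : ℤ)) ∧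
        (∀ τ, τ ≠ t₀ → TypeRel () (a τ) (altExt fun ξ => (mult t₀ ξ : ℤ))
          (altExt fun ξ => (mult τ ξ : ℤ))) ∧ Positive D (mult t₀)) ∧
    (∀ (P : Type) (χ : P → Fin (N + 1) → ℕ) (mult₀ : Wt Unit (N + 1) → ℕ)
      (mult : P → Wt Unit (N + 1) → ℕ),
      (∃ c : W → ℤ, HasCrystallineCycles D (fun ξ => (mult₀ ξ : ℤ)) c ∧
        HasCycles D (fun x => psClass D p (χ x)) (fun x ξ => (mult x ξ : ℤ)) c) ↔
      HodgeEq id (fun _ => (p : ℤ)) (fun ξ => (mult₀ ξ : ℤ)) ∧
        ∀ x, TameRel () p (χ x) (altExt fun ξ => (mult₀ ξ : ℤ))
          (altExt fun ξ => (mult x ξ : ℤ))) := by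
  have hS := shape_Qp p hp.two_le
  exact ⟨fun P χ mult₀ mult => tame_mult_iff hS D hone p χ mult₀ mult,
    fun T θ t₀ a ht ha hθ mult => mult_rel_iff hS D hone θ t₀ ht a ha hθ mult,
    fun P χ mult₀ mult => tame_iff hS D hone p χ _ _ int_torsion_free⟩

end Pool.Agent.Results.MP_7b0b46_nt.TypeRelations
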